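import Pool.Agent.Y681.TK.Base2

/-! Products of sines: asymptotics (TK-SDA), conclusion. -/

set_option autoImplicit false

namespace Pool.Agent.Y681.TK

open Finset Filter Topology MeasureTheory
open scoped Real

/-- uniform bound for the error -/
theorem TT_unif {δ₀ : ℝ} (h0 : 0 < δ₀) (h1 : δ₀ < 1) {N m : ℕ} (hN : 0 < N)
    (hm : (m : ℝ) ≤ (1 - δ₀) * N) : TT N m ≤ 0 ∧ kk (1 - δ₀) / (2 * N) ≤ TT N m := by
  have hN' : (0 : ℝ) < N := by exact_mod_cast hN
  have hmN : m < N := by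
    have : (m : ℝ) < N := by nlinarith
    exact_mod_cast this
  obtain ⟨a1, a2⟩ := TT_bound hN m hmN
  refine ⟨a1, le_trans ?_ a2⟩
  refine div_le_div_of_nonneg_right ?_ (by positivity)
  exact kk_anti (by positivity) (by rw [div_le_iff₀ hN']; exact hm) (by linarith)

theorem sda1 : ∀ δ₀ : ℝ, 0 < δ₀ → δ₀ < 1 / 2 → ∃ C : ℝ, 0 < C ∧ ∀ᶠ N : ℕ in atTop, ∀ m : ℕ,
    δ₀ * N ≤ m → (m : ℝ) ≤ (1 - δ₀) * N →
    (Sd N m)⁻¹ ≤ C / √N * Real.exp (N * Lc (m / N)) := by
  intro δ₀ h0 h1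
  have hpi := Real.pi_pos
  have hs0 := sin_pos' h0 (by linarith : δ₀ < 1)
  obtain ⟨K, hK⟩ : ∃ K, K = Real.exp (-(kk (1 - δ₀))) / √(2 * Real.sin (π * δ₀)) := ⟨_, rfl⟩
  refine ⟨K, by rw [hK]; positivity, ?_⟩
  filter_upwards [eventually_gt_atTop 0] with N hN m hm1 hm2
  have hN' : (0 : ℝ) < N := by exact_mod_cast hN
  have hN1 : (1 : ℝ) ≤ N := by exact_mod_cast hN
  have hm0 : 0 < m := by
    have : (0 : ℝ) < m := lt_of_lt_of_le (by positivity) hm1
    exact_mod_cast this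
  have hmN : m < N := by
    have : (m : ℝ) < N := by nlinarith
    exact_mod_cast this
  have hSd := Sd_pos hmN
  have hx0 : δ₀ ≤ (m : ℝ) / N := by rw [le_div_iff₀ hN']; exact hm1
  have hx1 : (m : ℝ) / N ≤ 1 - δ₀ := by rw [div_le_iff₀ hN']; exact hm2
  -- the sine
  have hsin : Real.sin (π * δ₀) ≤ Real.sin (π * (m / N)) := by
    rcases le_total ((m : ℝ) / N) (1 / 2) with h | h
    · exact Real.sin_le_sin_of_le_of_le_pi_div_two (by nlinarith) (by nlinarith) (by nlinarith)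
    · rw [← Real.sin_pi_sub (π * (m / N))]
      exact Real.sin_le_sin_of_le_of_le_pi_div_two (by nlinarith) (by nlinarith) (by nlinarith)
  have hst := Stirling.sqrt_pi_le_stirlingSeq (n := m) (by omega)
  obtain ⟨-, hT⟩ := TT_unif h0 (by linarith) hN hm2
  have hkk : kk (1 - δ₀) ≤ 0 := kk_nonpos (by linarith) (by linarith)
  have hT' : kk (1 - δ₀) ≤ TT N m := by
    refine le_trans ?_ hT
    rw [le_div_iff₀ (by positivity)]
    nlinarith
  have hE := main_eq hm0 hmN
  have hlow : √(2 * Real.sin (π * δ₀)) * √N * Real.exp (kk (1 - δ₀)) ≤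
      Sd N m * Real.exp (N * Lc (m / N)) := by
    rw [hE]
    refine mul_le_mul ?_ (Real.exp_le_exp.2 hT') (Real.exp_pos _).le (by
      have := (Real.sqrt_nonneg π).trans hst
      positivity)
    have h2 : √(2 * Real.sin (π * δ₀)) * √N = √π * √(2 * N * Real.sin (π * δ₀) / π) := by
      rw [← Real.sqrt_mul (by positivity), ← Real.sqrt_mul hpi.le]
      congr 1
      field_simp
    rw [h2]
    refine mul_le_mul hst (Real.sqrt_le_sqrt ?_) (Real.sqrt_nonneg _)
      ((Real.sqrt_nonneg π).trans hst)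
    refine div_le_div_of_nonneg_right ?_ hpi.le
    exact mul_le_mul_of_nonneg_left hsin (by positivity)
  have hsq : 0 < √(N : ℝ) := Real.sqrt_pos.2 hN'
  have hsq2 : 0 < √(2 * Real.sin (π * δ₀)) := Real.sqrt_pos.2 (by positivity)
  rw [inv_le_iff_one_le_mul₀ hSd]
  have e1 : K / √N * Real.exp (N * Lc (m / N)) * Sd N m =
      (Sd N m * Real.exp (N * Lc (m / N))) /
        (√(2 * Real.sin (π * δ₀)) * √N * Real.exp (kk (1 - δ₀))) := by
    rw [hK, Real.exp_neg]
    field_simp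
  rw [mul_comm, mul_comm (Sd N m), e1, le_div_iff₀ (by positivity), one_mul]
  exact hlow

theorem sda2 : ∀ (m : ℕ → ℕ) (δ : ℝ), 0 < δ → δ < 1 →
    Tendsto (fun N => (m N : ℝ) / N) atTop (𝓝 δ) →
    Tendsto (fun N : ℕ => Sd N (m N) * Real.exp (N * Lc (m N / N)) / √N) atTop
      (𝓝 (√(2 * Real.sin (π * δ)))) := by
  intro m δ h0 h1 hlim
  have hpi := Real.pi_pos
  obtain ⟨δ₀, hδ₀⟩ : ∃ δ₀, δ₀ = (1 - δ) / 2 := ⟨_, rfl⟩
  have hδ0 : 0 < δ₀ := by rw [hδ₀]; linarith
  have hδ1 : δ₀ < 1 := by rw [hδ₀]; linarith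
  have e1 : ∀ᶠ N : ℕ in atTop, (m N : ℝ) / N < 1 - δ₀ :=
    hlim.eventually_lt_const (by rw [hδ₀]; linarith)
  have e2 : ∀ᶠ N : ℕ in atTop, δ / 2 < (m N : ℝ) / N :=
    hlim.eventually_const_lt (by linarith)
  -- `m N → ∞`
  have hmT : Tendsto m atTop atTop := by
    have h2 : Tendsto (fun N : ℕ => δ / 2 * (N : ℝ)) atTop atTop :=
      tendsto_natCast_atTop_atTop.const_mul_atTop (by positivity)
    have h3 : Tendsto (fun N : ℕ => (m N : ℝ)) atTop atTop := by
      refine tendsto_atTop_mono' atTop ?_ h2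
      filter_upwards [e2, eventually_gt_atTop 0] with N h4 h5
      have hN' : (0 : ℝ) < N := by exact_mod_cast h5
      rw [lt_div_iff₀ hN'] at h4
      exact h4.le
    exact tendsto_natCast_atTop_iff.1 h3
  have l1 : Tendsto (fun N => Stirling.stirlingSeq (m N)) atTop (𝓝 (√π)) :=
    Stirling.tendsto_stirlingSeq_sqrt_pi.comp hmT
  have l2 : Tendsto (fun N : ℕ => √(2 * Real.sin (π * (m N / N)) / π)) atTop
      (𝓝 (√(2 * Real.sin (π * δ) / π))) := by
    refine (Real.continuous_sqrt.tendsto _).comp ?_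
    refine Tendsto.div_const ?_ π
    exact ((Real.continuous_sin.tendsto _).comp (hlim.const_mul π)).const_mul 2
  have l3 : Tendsto (fun N : ℕ => TT N (m N)) atTop (𝓝 0) := by
    have h2 : Tendsto (fun N : ℕ => kk (1 - δ₀) / (2 * (N : ℝ))) atTop (𝓝 0) :=
      tendsto_const_nhds.div_atTop (tendsto_natCast_atTop_atTop.const_mul_atTop two_pos)
    refine tendsto_of_tendsto_of_tendsto_of_le_of_le' h2 tendsto_const_nhds ?_ ?_
    · filter_upwards [e1, eventually_gt_atTop 0] with N h4 h5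
      have hN' : (0 : ℝ) < N := by exact_mod_cast h5
      rw [div_lt_iff₀ hN'] at h4
      exact (TT_unif hδ0 hδ1 h5 h4.le).2
    · filter_upwards [e1, eventually_gt_atTop 0] with N h4 h5
      have hN' : (0 : ℝ) < N := by exact_mod_cast h5
      rw [div_lt_iff₀ hN'] at h4
      exact (TT_unif hδ0 hδ1 h5 h4.le).1
  have l4 := (l1.mul l2).mul ((Real.continuous_exp.tendsto _).comp l3)
  rw [Real.exp_zero, mul_one] at l4
  have e3 : √π * √(2 * Real.sin (π * δ) / π) = √(2 * Real.sin (π * δ)) := by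
    rw [← Real.sqrt_mul hpi.le]
    congr 1
    field_simp
  rw [e3] at l4
  refine l4.congr' ?_
  filter_upwards [e1, e2, eventually_gt_atTop 0] with N h4 h5 h6
  have hN' : (0 : ℝ) < N := by exact_mod_cast h6
  have hm0 : 0 < m N := by
    rw [lt_div_iff₀ hN'] at h5
    have : (0 : ℝ) < m N := lt_trans (by positivity) h5
    exact_mod_cast this
  have hmN : m N < N := by
    rw [div_lt_iff₀ hN'] at h4
    have : (m N : ℝ) < N := by nlinarith
    exact_mod_cast this
  have hsq : 0 < √(N : ℝ) := Real.sqrt_pos.2 hN'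
  rw [main_eq hm0 hmN]
  have e4 : √(2 * N * Real.sin (π * (m N / N)) / π) =
      √(2 * Real.sin (π * (m N / N)) / π) * √N := by
    have hs := sin_pos' (t := (m N : ℝ) / N) (by positivity) (lt_trans h4 (by linarith))
    rw [← Real.sqrt_mul (by positivity)]
    congr 1
    ring
  rw [e4]
  simp only [Function.comp]
  field_simp

end Pool.Agent.Y681.TK
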