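import Pool.Agent.Y472.K.Defs
import Pool.Agent.Y681.TK.Base3

/-! TK-SB and TK-SDA. -/

set_option autoImplicit false

namespace Pool.Agent.Y681.TK

open Filter Topology
open scoped Real

theorem t_SB : Pool.Agent.Y472.K.S_SB := sb

theorem t_SDA : Pool.Agent.Y472.K.S_SDA := ⟨sda1, sda2⟩

end Pool.Agent.Y681.TK
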