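import Mathlib

/-! Products of sines: lower bound (TK-SB). Copies of the definitions `Sd`, `Lc`. -/

set_option autoImplicit false

namespace Pool.Agent.Y681.TK

open Finset Filter Topology MeasureTheory
open scoped Real

noncomputable def Sd (N d : ℕ) : ℝ := ∏ k ∈ range d, (2 * Real.sin (π * (k + 1) / N))
noncomputable def Lc (δ : ℝ) : ℝ := -∫ t in (0 : ℝ)..δ, Real.log (2 * Real.sin (π * t))

/-- `log (2 sin π t)` -/
noncomputable def el (t : ℝ) : ℝ := Real.log (2 * Real.sin (π * t))

theorem el_int (a b : ℝ) : IntervalIntegrable el volume a b := by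
  have h1 : MeromorphicOn (fun t : ℝ => 2 * Real.sin (π * t)) (Set.uIcc a b) := by
    intro t _
    fun_prop
  have h2 := h1.intervalIntegrable_log_norm
  have e : (fun x : ℝ => Real.log ‖(fun t : ℝ => 2 * Real.sin (π * t)) x‖) = el := by
    funext t
    simp only [Real.norm_eq_abs, Real.log_abs]
    rfl
  rw [e] at h2
  exact h2

theorem sin_pos' {t : ℝ} (h0 : 0 < t) (h1 : t < 1) : 0 < Real.sin (π * t) := by
  have := Real.pi_pos
  exact Real.sin_pos_of_pos_of_lt_pi (by positivity) (by nlinarith)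

theorem el_mono {s t : ℝ} (h0 : 0 < s) (hst : s ≤ t) (h1 : t ≤ 1 / 2) : el s ≤ el t := by
  have hpi := Real.pi_pos
  unfold el
  refine Real.log_le_log (mul_pos two_pos (sin_pos' h0 (by linarith))) ?_
  refine mul_le_mul_of_nonneg_left ?_ two_pos.le
  exact Real.sin_le_sin_of_le_of_le_pi_div_two (by nlinarith) (by nlinarith) (by nlinarith)

theorem el_anti {s t : ℝ} (h0 : 1 / 2 ≤ s) (hst : s ≤ t) (h1 : t < 1) : el t ≤ el s := by
  have hpi := Real.pi_pos
  unfold el
  refine Real.log_le_log (mul_pos two_pos (sin_pos' (by linarith) h1)) ?_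
  refine mul_le_mul_of_nonneg_left ?_ two_pos.le
  rw [← Real.sin_pi_sub (π * t), ← Real.sin_pi_sub (π * s)]
  exact Real.sin_le_sin_of_le_of_le_pi_div_two (by nlinarith) (by nlinarith) (by nlinarith)

theorem el_le {t : ℝ} (h0 : 0 < t) (h1 : t < 1) : el t ≤ Real.log 2 := by
  unfold el
  refine Real.log_le_log (mul_pos two_pos (sin_pos' h0 h1)) ?_
  have := Real.sin_le_one (π * t)
  linarith

theorem cellA {a b : ℝ} (h0 : 0 ≤ a) (hab : a ≤ b) (h1 : b ≤ 1 / 2) :
    ∫ t in a..b, el t ≤ (b - a) * el b := by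
  have h2 : ∫ t in a..b, el t ≤ ∫ _ in a..b, el b :=
    intervalIntegral.integral_mono_on_of_le_Ioo hab (el_int a b) intervalIntegrable_const
      fun t ht => el_mono (lt_of_le_of_lt h0 ht.1) ht.2.le h1
  rwa [intervalIntegral.integral_const, smul_eq_mul] at h2

theorem cellB {a b : ℝ} (h0 : 1 / 2 ≤ a) (hab : a ≤ b) (h1 : b ≤ 1) :
    ∫ t in a..b, el t ≤ (b - a) * el a := by
  have h2 : ∫ t in a..b, el t ≤ ∫ _ in a..b, el a :=
    intervalIntegral.integral_mono_on_of_le_Ioo hab (el_int a b) intervalIntegrable_const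
      fun t ht => el_anti h0 ht.1.le (lt_of_lt_of_le ht.2 h1)
  rwa [intervalIntegral.integral_const, smul_eq_mul] at h2

theorem cellC {a b : ℝ} (h0 : 0 ≤ a) (hab : a ≤ b) (h1 : b ≤ 1) :
    ∫ t in a..b, el t ≤ (b - a) * Real.log 2 := by
  have h2 : ∫ t in a..b, el t ≤ ∫ _ in a..b, Real.log 2 :=
    intervalIntegral.integral_mono_on_of_le_Ioo hab (el_int a b) intervalIntegrable_const
      fun t ht => el_le (lt_of_le_of_lt h0 ht.1) (lt_of_lt_of_le ht.2 h1)
  rwa [intervalIntegral.integral_const, smul_eq_mul] at h2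

/-- the integral up to `x` -/
noncomputable def Il (x : ℝ) : ℝ := ∫ t in (0 : ℝ)..x, el t

theorem Il_sub (a b : ℝ) : Il b - Il a = ∫ t in a..b, el t := by
  unfold Il
  exact intervalIntegral.integral_interval_sub_left (el_int _ _) (el_int _ _)

theorem Lc_eq (x : ℝ) : Lc x = -Il x := rfl

theorem Il_cont : Continuous Il :=
  intervalIntegral.continuous_primitive el_int 0

/-- the sum -/
noncomputable def Sl (N m : ℕ) : ℝ := ∑ k ∈ range m, el (((k + 1 : ℕ) : ℝ) / N)

theorem Sd_pos {N m : ℕ} (h : m < N) : 0 < Sd N m := by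
  unfold Sd
  refine Finset.prod_pos fun k hk => ?_
  rw [mem_range] at hk
  have hN : (0 : ℝ) < N := by exact_mod_cast (by omega : 0 < N)
  have h1 : ((k : ℝ) + 1) / N < 1 := by
    rw [div_lt_one hN]
    exact_mod_cast (by omega : k + 1 < N)
  have := sin_pos' (t := ((k : ℝ) + 1) / N) (by positivity) h1
  rw [mul_div_assoc]
  positivity

theorem log_Sd {N m : ℕ} (h : m < N) : Real.log (Sd N m) = Sl N m := by
  unfold Sd Sl
  rw [Real.log_prod]
  · refine sum_congr rfl fun k _ => ?_
    unfold el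
    rw [mul_div_assoc]
    push_cast
    rfl
  · intro k hk
    rw [mem_range] at hk
    have hN : (0 : ℝ) < N := by exact_mod_cast (by omega : 0 < N)
    have h1 : ((k : ℝ) + 1) / N < 1 := by
      rw [div_lt_one hN]
      exact_mod_cast (by omega : k + 1 < N)
    have := sin_pos' (t := ((k : ℝ) + 1) / N) (by positivity) h1
    rw [mul_div_assoc]
    positivity

theorem low1 {N : ℕ} (hN : 0 < N) : ∀ m : ℕ, 2 * m ≤ N → N * Il (m / N) ≤ Sl N m := by
  have hN' : (0 : ℝ) < N := by exact_mod_cast hN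
  intro m
  induction m with
  | zero =>
    intro _
    simp [Il, Sl]
  | succ m ih =>
    intro h
    have ih' := ih (by omega)
    have h1 : Sl N (m + 1) = Sl N m + el (((m + 1 : ℕ) : ℝ) / N) := by
      unfold Sl
      rw [sum_range_succ]
    have h2 : ((m + 1 : ℕ) : ℝ) / N ≤ 1 / 2 := by
      rw [div_le_div_iff₀ hN' two_pos]
      exact_mod_cast (by omega : (m + 1) * 2 ≤ 1 * N)
    have h3 := cellA (a := (m : ℝ) / N) (b := ((m + 1 : ℕ) : ℝ) / N) (by positivity)
      (by gcongr; push_cast; linarith) h2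
    have h4 : ((m + 1 : ℕ) : ℝ) / N - (m : ℝ) / N = 1 / N := by
      push_cast
      ring
    rw [← Il_sub, h4] at h3
    have h5 := mul_le_mul_of_nonneg_left h3 hN'.le
    have h6 : (N : ℝ) * (1 / N * el (((m + 1 : ℕ) : ℝ) / N)) = el (((m + 1 : ℕ) : ℝ) / N) := by
      field_simp
    rw [h6] at h5
    rw [h1]
    linarith

theorem low2 {N : ℕ} (hN : 0 < N) : ∀ m : ℕ, N ≤ 2 * m + 1 → m < N →
    N * Il (((m + 1 : ℕ) : ℝ) / N) - Real.log 2 ≤ Sl N m := by
  have hN' : (0 : ℝ) < N := by exact_mod_cast hN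
  intro m
  induction m with
  | zero =>
    intro h h'
    have : N = 1 := by omega
    subst this
    have h3 := cellC (a := 0) (b := 1) le_rfl zero_le_one le_rfl
    simp only [sub_zero, one_mul] at h3
    simp only [Sl, range_zero, sum_empty]
    norm_num
    exact h3
  | succ m ih =>
    intro h h'
    rcases Nat.lt_or_ge (2 * m + 1) N with hlt | hge
    · -- the first index
      have hl := low1 hN (m + 1)
      rcases Nat.lt_or_ge N (2 * (m + 1)) with h5 | h5
      · -- `N = 2 m + 1`: impossible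
        omega
      · have hl' := hl h5
        have h3 := cellC (a := ((m + 1 : ℕ) : ℝ) / N) (b := ((m + 1 + 1 : ℕ) : ℝ) / N)
          (by positivity) (by gcongr; push_cast; linarith)
          (by rw [div_le_one hN']; exact_mod_cast (by omega : m + 1 + 1 ≤ N))
        have h4 : ((m + 1 + 1 : ℕ) : ℝ) / N - ((m + 1 : ℕ) : ℝ) / N = 1 / N := by
          push_cast
          ring
        rw [← Il_sub, h4] at h3
        have h5 := mul_le_mul_of_nonneg_left h3 hN'.le
        have h6 : (N : ℝ) * (1 / N * Real.log 2) = Real.log 2 := by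
          field_simp
        rw [h6] at h5
        linarith
    · have ih' := ih hge (by omega)
      have h1 : Sl N (m + 1) = Sl N m + el (((m + 1 : ℕ) : ℝ) / N) := by
        unfold Sl
        rw [sum_range_succ]
      have h2 : 1 / 2 ≤ ((m + 1 : ℕ) : ℝ) / N := by
        rw [div_le_div_iff₀ two_pos hN']
        exact_mod_cast (by omega : 1 * N ≤ (m + 1) * 2)
      have h3 := cellB (a := ((m + 1 : ℕ) : ℝ) / N) (b := ((m + 1 + 1 : ℕ) : ℝ) / N) h2
        (by gcongr; push_cast; linarith)
        (by rw [div_le_one hN']; exact_mod_cast (by omega : m + 1 + 1 ≤ N))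
      have h4 : ((m + 1 + 1 : ℕ) : ℝ) / N - ((m + 1 : ℕ) : ℝ) / N = 1 / N := by
        push_cast
        ring
      rw [← Il_sub, h4] at h3
      have h5 := mul_le_mul_of_nonneg_left h3 hN'.le
      have h6 : (N : ℝ) * (1 / N * el (((m + 1 : ℕ) : ℝ) / N)) = el (((m + 1 : ℕ) : ℝ) / N) := by
        field_simp
      rw [h6] at h5
      rw [h1]
      linarith

theorem sb : ∀ ε : ℝ, 0 < ε → ∀ᶠ N : ℕ in atTop, ∀ m < N,
    (Sd N m)⁻¹ ≤ Real.exp (N * (Lc (m / N) + ε)) := by
  intro ε hε
  -- uniform continuity on `[0, 1]`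
  have huc : UniformContinuousOn Il (Set.Icc 0 1) :=
    isCompact_Icc.uniformContinuousOn_of_continuous Il_cont.continuousOn
  obtain ⟨δ, hδ, hδ1⟩ := Metric.uniformContinuousOn_iff.1 huc (ε / 2) (by positivity)
  have e1 : ∀ᶠ N : ℕ in atTop, 1 / (N : ℝ) < δ :=
    (tendsto_one_div_atTop_nhds_zero_nat (𝕜 := ℝ)).eventually_lt_const hδ
  have e2 : ∀ᶠ N : ℕ in atTop, 2 * Real.log 2 / ε ≤ (N : ℝ) :=
    tendsto_natCast_atTop_atTop.eventually_ge_atTop _
  filter_upwards [e1, e2, eventually_gt_atTop 0] with N h1 h2 h0 m hm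
  have hN' : (0 : ℝ) < N := by exact_mod_cast h0
  have h3 : Real.log 2 ≤ ε / 2 * N := by
    rw [div_le_iff₀ hε] at h2
    linarith
  have key : N * Il (m / N) - N * ε ≤ Sl N m := by
    rcases Nat.lt_or_ge (2 * m + 1) N with h4 | h4
    · have := low1 h0 m (by omega)
      have : 0 ≤ (N : ℝ) * ε := by positivity
      linarith
    · have h5 := low2 h0 m h4 hm
      have h6 := hδ1 (((m + 1 : ℕ) : ℝ) / N)
        ⟨by positivity, by rw [div_le_one hN']; exact_mod_cast hm⟩ ((m : ℝ) / N)
        ⟨by positivity, by rw [div_le_one hN']; exact_mod_cast hm.le⟩ (by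
          rw [Real.dist_eq]
          have : ((m + 1 : ℕ) : ℝ) / N - (m : ℝ) / N = 1 / N := by
            push_cast
            ring
          rw [this, abs_of_pos (by positivity)]
          exact h1)
      rw [Real.dist_eq, abs_lt] at h6
      have h7 := mul_lt_mul_of_pos_left h6.1 hN'
      nlinarith
  have h8 := Sd_pos hm
  rw [inv_le_comm₀ h8 (Real.exp_pos _), ← Real.exp_neg, ← Real.le_log_iff_exp_le h8, log_Sd hm,
    Lc_eq]
  nlinarith

end Pool.Agent.Y681.TK
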