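import Pool.Agent.Y681.TK.Base

/-! Products of sines: asymptotics (TK-SDA). -/

set_option autoImplicit false

namespace Pool.Agent.Y681.TK

open Finset Filter Topology MeasureTheory
open scoped Real

/-- `log (sin π t / (π t))`, with the value `0` at `0` -/
noncomputable def hh (t : ℝ) : ℝ := Real.log (Real.sin (π * t)) - Real.log (π * t)

/-- the derivative of `hh` -/
noncomputable def kk (t : ℝ) : ℝ := π * Real.cos (π * t) / Real.sin (π * t) - 1 / t

theorem hh_zero : hh 0 = 0 := by simp [hh]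

theorem kk_zero : kk 0 = 0 := by simp [kk]

theorem hh_eq {t : ℝ} (h0 : 0 < t) (h1 : t < 1) : hh t = Real.log (Real.sin (π * t) / (π * t)) := by
  have := sin_pos' h0 h1
  have hpi := Real.pi_pos
  unfold hh
  rw [Real.log_div this.ne' (by positivity)]

theorem hh_deriv {t : ℝ} (h0 : 0 < t) (h1 : t < 1) : HasDerivAt hh (kk t) t := by
  have hs := sin_pos' h0 h1
  have hpi := Real.pi_pos
  have d1 : HasDerivAt (fun t : ℝ => π * t) π t := by
    simpa using (hasDerivAt_id t).const_mul π
  have d2 : HasDerivAt (fun t : ℝ => Real.sin (π * t)) (Real.cos (π * t) * π) t := d1.sin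
  have d3 := (d2.log hs.ne').sub (d1.log (by positivity))
  have e : kk t = Real.cos (π * t) * π / Real.sin (π * t) - π / (π * t) := by
    unfold kk
    rw [mul_comm π (Real.cos (π * t))]
    congr 1
    field_simp
  rw [e]
  exact d3

theorem kk_deriv {t : ℝ} (h0 : 0 < t) (h1 : t < 1) :
    HasDerivAt kk (-(π ^ 2 / Real.sin (π * t) ^ 2) + 1 / t ^ 2) t := by
  have hs := sin_pos' h0 h1
  have hpi := Real.pi_pos
  have d1 : HasDerivAt (fun t : ℝ => π * t) π t := by
    simpa using (hasDerivAt_id t).const_mul π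
  have d2 : HasDerivAt (fun t : ℝ => Real.sin (π * t)) (Real.cos (π * t) * π) t := d1.sin
  have d3 : HasDerivAt (fun t : ℝ => π * Real.cos (π * t)) (π * (-Real.sin (π * t) * π)) t :=
    d1.cos.const_mul π
  have d4 := (d3.div d2 hs.ne').sub ((hasDerivAt_id t).inv h0.ne')
  have e : -(π ^ 2 / Real.sin (π * t) ^ 2) + 1 / t ^ 2 =
      (π * (-Real.sin (π * t) * π) * Real.sin (π * t) -
        π * Real.cos (π * t) * (Real.cos (π * t) * π)) / Real.sin (π * t) ^ 2 -
        -1 / (id t) ^ 2 := by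
    have h2 := Real.sin_sq_add_cos_sq (π * t)
    have h3 : π * (-Real.sin (π * t) * π) * Real.sin (π * t) -
        π * Real.cos (π * t) * (Real.cos (π * t) * π) = -π ^ 2 := by
      linear_combination (-π ^ 2) * h2
    rw [h3]
    simp only [id]
    ring
  rw [e]
  have e2 : kk = fun t => π * Real.cos (π * t) / Real.sin (π * t) - (id t)⁻¹ := by
    funext t
    unfold kk
    rw [one_div]
    rfl
  rw [e2]
  exact d4

theorem kk_anti_pos : AntitoneOn kk (Set.Ioo 0 1) := by
  refine antitoneOn_of_deriv_nonpos (convex_Ioo 0 1) ?_ ?_ ?_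
  · intro t ht
    exact (kk_deriv ht.1 ht.2).continuousAt.continuousWithinAt
  · rw [interior_Ioo]
    intro t ht
    exact (kk_deriv ht.1 ht.2).differentiableAt.differentiableWithinAt
  · rw [interior_Ioo]
    intro t ht
    rw [(kk_deriv ht.1 ht.2).deriv]
    have hs := sin_pos' ht.1 ht.2
    have hpi := Real.pi_pos
    have ht0 := ht.1
    have h1 : Real.sin (π * t) ≤ π * t := Real.sin_le (by positivity)
    have h2 : 1 / t ^ 2 ≤ π ^ 2 / Real.sin (π * t) ^ 2 := by
      rw [div_le_div_iff₀ (by positivity) (by positivity), one_mul]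
      have := pow_le_pow_left₀ hs.le h1 2
      nlinarith
    linarith

theorem kk_nonpos {t : ℝ} (h0 : 0 < t) (h1 : t < 1) : kk t ≤ 0 := by
  have hs := sin_pos' h0 h1
  have hpi := Real.pi_pos
  unfold kk
  rw [sub_nonpos, div_le_div_iff₀ hs h0, one_mul]
  rcases lt_or_ge (π * t) (π / 2) with h | h
  · have h2 := Real.le_tan (x := π * t) (by positivity) h
    have h3 : 0 < Real.cos (π * t) := Real.cos_pos_of_mem_Ioo ⟨by nlinarith, h⟩
    rw [Real.tan_eq_sin_div_cos, le_div_iff₀ h3] at h2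
    linarith
  · have h3 : Real.cos (π * t) ≤ 0 := by
      refine Real.cos_nonpos_of_pi_div_two_le_of_le h ?_
      nlinarith
    nlinarith

theorem kk_anti {s t : ℝ} (h0 : 0 ≤ s) (hst : s ≤ t) (h1 : t < 1) : kk t ≤ kk s := by
  rcases h0.eq_or_lt with h | h
  · rw [← h, kk_zero]
    rcases (h ▸ hst : (0:ℝ) ≤ t).eq_or_lt with h2 | h2
    · rw [← h2, kk_zero]
    · exact kk_nonpos h2 h1
  · exact kk_anti_pos ⟨h, lt_of_le_of_lt hst h1⟩ ⟨lt_of_lt_of_le h hst, h1⟩ hst

theorem hh_sinc {t : ℝ} (h0 : 0 ≤ t) (h1 : t < 1) : hh t = Real.log (Real.sinc (π * t)) := by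
  rcases h0.eq_or_lt with h | h
  · rw [← h, hh_zero, mul_zero, Real.sinc_zero, Real.log_one]
  · have hpi := Real.pi_pos
    rw [hh_eq h h1, Real.sinc_of_ne_zero (by positivity)]

theorem sinc_pos {t : ℝ} (h0 : 0 ≤ t) (h1 : t < 1) : 0 < Real.sinc (π * t) := by
  rcases h0.eq_or_lt with h | h
  · rw [← h, mul_zero, Real.sinc_zero]
    exact one_pos
  · have hpi := Real.pi_pos
    rw [Real.sinc_of_ne_zero (by positivity)]
    have := sin_pos' h h1
    positivity

theorem hh_contOn : ContinuousOn hh (Set.Ico 0 1) := by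
  have h1 : ContinuousOn (fun t : ℝ => Real.log (Real.sinc (π * t))) (Set.Ico 0 1) := by
    refine ContinuousOn.log ?_ fun t ht => (sinc_pos ht.1 ht.2).ne'
    exact (Real.continuous_sinc.comp (continuous_const.mul continuous_id)).continuousOn
  exact h1.congr fun t ht => hh_sinc ht.1 ht.2

theorem hh_int {a b : ℝ} (ha : 0 ≤ a) (ha1 : a < 1) (hb : 0 ≤ b) (hb1 : b < 1) :
    IntervalIntegrable hh volume a b := by
  refine (hh_contOn.mono ?_).intervalIntegrable
  intro t ht
  rw [Set.mem_uIcc] at ht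
  rcases ht with h | h
  · exact ⟨ha.trans h.1, lt_of_le_of_lt h.2 hb1⟩
  · exact ⟨hb.trans h.1, lt_of_le_of_lt h.2 ha1⟩

/-- The error of the trapezoidal rule on a cell. -/
theorem cell {a b : ℝ} (h0 : 0 ≤ a) (hab : a < b) (h1 : b < 1) :
    0 ≤ (∫ t in a..b, hh t) - (b - a) * (hh a + hh b) / 2 ∧
    (∫ t in a..b, hh t) - (b - a) * (hh a + hh b) / 2 ≤ (b - a) ^ 2 / 2 * (kk a - kk b) := by
  obtain ⟨φ, hφ⟩ : ∃ φ : ℝ → ℝ, φ = fun t =>
    (∫ s in a..t, hh s) - (t - a) * (hh a + hh t) / 2 := ⟨_, rfl⟩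
  have hsub : Set.Icc a b ⊆ Set.Ico 0 1 := fun t ht => ⟨h0.trans ht.1, lt_of_le_of_lt ht.2 h1⟩
  have hcI : ContinuousOn (fun t => ∫ s in a..t, hh s) (Set.Icc a b) := by
    have := intervalIntegral.continuousOn_primitive_interval (μ := volume) (f := hh) (a := a)
      (b := b) (by
        rw [Set.uIcc_of_le hab.le]
        exact (hh_contOn.mono hsub).integrableOn_Icc)
    rwa [Set.uIcc_of_le hab.le] at this
  have hc : ContinuousOn φ (Set.Icc a b) := by
    rw [hφ]
    refine hcI.sub (ContinuousOn.div_const ?_ _)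
    exact (continuousOn_id.sub continuousOn_const).mul
      (continuousOn_const.add (hh_contOn.mono hsub))
  have hd : ∀ t ∈ Set.Ioo a b, HasDerivAt φ ((hh t - hh a) / 2 - (t - a) * kk t / 2) t := by
    intro t ht
    have ht0 : 0 < t := lt_of_le_of_lt h0 ht.1
    have ht1 : t < 1 := ht.2.trans h1
    have d0 := hh_deriv ht0 ht1
    have d1 : HasDerivAt (fun t => ∫ s in a..t, hh s) (hh t) t := by
      refine intervalIntegral.integral_hasDerivAt_right (hh_int h0 (ht.1.trans ht1) ht0.le ht1)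
        ?_ d0.continuousAt
      exact ContinuousAt.stronglyMeasurableAtFilter (s := Set.Ioo 0 1) isOpen_Ioo
        (fun x hx => (hh_deriv hx.1 hx.2).continuousAt) t ⟨ht0, ht1⟩
    have d2 : HasDerivAt (fun t => (t - a) * (hh a + hh t) / 2)
        ((1 * (hh a + hh t) + (t - a) * kk t) / 2) t := by
      refine HasDerivAt.div_const ?_ 2
      exact ((hasDerivAt_id t).sub_const a).mul (d0.const_add (hh a))
    have d3 := d1.sub d2
    rw [hφ]
    have e : (hh t - hh a) / 2 - (t - a) * kk t / 2 =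
      hh t - (1 * (hh a + hh t) + (t - a) * kk t) / 2 := by ring
    rw [e]
    exact d3
  have hbd : ∀ t ∈ Set.Ioo a b, 0 ≤ (hh t - hh a) / 2 - (t - a) * kk t / 2 ∧
      (hh t - hh a) / 2 - (t - a) * kk t / 2 ≤ (b - a) / 2 * (kk a - kk b) := by
    intro t ht
    have ht1 : t < 1 := ht.2.trans h1
    obtain ⟨ξ, hξ, hs⟩ := exists_hasDerivAt_eq_slope hh kk ht.1
      (hh_contOn.mono fun s hs => ⟨h0.trans hs.1, lt_of_le_of_lt hs.2 ht1⟩)
      (fun s hs => hh_deriv (lt_of_le_of_lt h0 hs.1) (hs.2.trans ht1))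
    have hta : 0 < t - a := by linarith [ht.1]
    have h2 : hh t - hh a = (t - a) * kk ξ := by
      rw [hs]
      field_simp
    have a1 : kk t ≤ kk ξ := kk_anti (h0.trans hξ.1.le) hξ.2.le ht1
    have a2 : kk ξ ≤ kk a := kk_anti h0 hξ.1.le (hξ.2.trans ht1)
    have a3 : kk b ≤ kk t := kk_anti (h0.trans ht.1.le) ht.2.le h1
    rw [h2]
    constructor
    · nlinarith
    · have a4 : (t - a) * (kk ξ - kk t) ≤ (b - a) * (kk a - kk b) :=
        mul_le_mul (by linarith [ht.2]) (by linarith) (by linarith) (by linarith)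
      linarith
  have hφa : φ a = 0 := by
    rw [hφ]
    simp
  have hφb : φ b = (∫ t in a..b, hh t) - (b - a) * (hh a + hh b) / 2 := by rw [hφ]
  have hint : interior (Set.Icc a b) = Set.Ioo a b := interior_Icc
  have ha' : a ∈ Set.Icc a b := ⟨le_rfl, hab.le⟩
  have hb' : b ∈ Set.Icc a b := ⟨hab.le, le_rfl⟩
  have u1 := (convex_Icc a b).mul_sub_le_image_sub_of_le_deriv hc (by
    rw [hint]
    exact fun t ht => (hd t ht).differentiableAt.differentiableWithinAt) (C := 0) (by
    rw [hint]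
    intro t ht
    rw [(hd t ht).deriv]
    exact (hbd t ht).1) a ha' b hb' hab.le
  have u2 := (convex_Icc a b).image_sub_le_mul_sub_of_deriv_le hc (by
    rw [hint]
    exact fun t ht => (hd t ht).differentiableAt.differentiableWithinAt)
    (C := (b - a) / 2 * (kk a - kk b)) (by
    rw [hint]
    intro t ht
    rw [(hd t ht).deriv]
    exact (hbd t ht).2) a ha' b hb' hab.le
  rw [hφa, hφb] at u1 u2
  constructor
  · linarith
  · nlinarith

/-- the error of the trapezoidal rule -/
noncomputable def TT (N m : ℕ) : ℝ :=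
  ∑ k ∈ range m, hh (((k + 1 : ℕ) : ℝ) / N) - N * (∫ t in (0:ℝ)..((m : ℝ) / N), hh t) -
    hh (m / N) / 2

theorem TT_bound {N : ℕ} (hN : 0 < N) : ∀ m : ℕ, m < N →
    TT N m ≤ 0 ∧ kk (m / N) / (2 * N) ≤ TT N m := by
  have hN' : (0 : ℝ) < N := by exact_mod_cast hN
  intro m
  induction m with
  | zero =>
    intro _
    simp [TT, hh_zero, kk_zero]
  | succ m ih =>
    intro h
    obtain ⟨i1, i2⟩ := ih (by omega)
    have hb1 : ((m + 1 : ℕ) : ℝ) / N < 1 := by
      rw [div_lt_one hN']
      exact_mod_cast h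
    have ha1 : (m : ℝ) / N < 1 := by
      rw [div_lt_one hN']
      exact_mod_cast (by omega : m < N)
    have hab : (m : ℝ) / N < ((m + 1 : ℕ) : ℝ) / N := by
      gcongr
      linarith
    obtain ⟨c1, c2⟩ := cell (a := (m : ℝ) / N) (b := ((m + 1 : ℕ) : ℝ) / N) (by positivity) hab hb1
    have h4 : ((m + 1 : ℕ) : ℝ) / N - (m : ℝ) / N = 1 / N := by
      push_cast
      ring
    rw [h4] at c1 c2
    have h5 : (∫ t in (0:ℝ)..(((m + 1 : ℕ) : ℝ) / N), hh t) =
        (∫ t in (0:ℝ)..((m : ℝ) / N), hh t) +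
          ∫ t in ((m : ℝ) / N)..(((m + 1 : ℕ) : ℝ) / N), hh t :=
      (intervalIntegral.integral_add_adjacent_intervals
        (hh_int le_rfl one_pos (by positivity) ha1)
        (hh_int (by positivity) ha1 (by positivity) hb1)).symm
    obtain ⟨J, hJ⟩ : ∃ J, J = ∫ t in ((m : ℝ) / N)..(((m + 1 : ℕ) : ℝ) / N), hh t := ⟨_, rfl⟩
    rw [← hJ] at c1 c2 h5
    have h6 : TT N (m + 1) = TT N m - N * (J - 1 / N * (hh (m / N) +
        hh (((m + 1 : ℕ) : ℝ) / N)) / 2) := by
      unfold TT
      rw [sum_range_succ, h5]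
      field_simp
      ring
    obtain ⟨X, hX⟩ : ∃ X, X = J - 1 / N * (hh (m / N) + hh (((m + 1 : ℕ) : ℝ) / N)) / 2 := ⟨_, rfl⟩
    rw [← hX] at c1 c2 h6
    rw [h6]
    have h7 := mul_le_mul_of_nonneg_left c2 hN'.le
    have h8 : (N : ℝ) * ((1 / N) ^ 2 / 2 * (kk (m / N) - kk (((m + 1 : ℕ) : ℝ) / N))) =
        kk (m / N) / (2 * N) - kk (((m + 1 : ℕ) : ℝ) / N) / (2 * N) := by
      field_simp
    rw [h8] at h7
    constructor
    · have := mul_nonneg hN'.le c1
      linarith
    · linarith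

/-- the integral of `log (2 sin π t)` -/
theorem Il_eq {x : ℝ} (h0 : 0 < x) (h1 : x < 1) :
    Il x = x * Real.log (2 * π * x) - x + ∫ t in (0:ℝ)..x, hh t := by
  have hpi := Real.pi_pos
  have e1 : Il x = ∫ t in (0:ℝ)..x, (Real.log (2 * π) + Real.log t + hh t) := by
    unfold Il
    refine intervalIntegral.integral_congr_ae ?_
    refine Filter.Eventually.of_forall fun t ht => ?_
    rw [Set.uIoc_of_le h0.le] at ht
    have ht0 : 0 < t := ht.1
    have hs := sin_pos' ht0 (lt_of_le_of_lt ht.2 h1)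
    unfold el hh
    rw [Real.log_mul two_ne_zero hs.ne', Real.log_mul two_ne_zero hpi.ne',
      Real.log_mul hpi.ne' ht0.ne']
    ring
  have i1 : IntervalIntegrable (fun _ : ℝ => Real.log (2 * π)) volume 0 x :=
    intervalIntegrable_const
  have i2 : IntervalIntegrable (fun t : ℝ => Real.log t) volume 0 x :=
    intervalIntegral.intervalIntegrable_log'
  rw [e1, intervalIntegral.integral_add (i1.add i2) (hh_int le_rfl one_pos h0.le h1),
    intervalIntegral.integral_add i1 i2, intervalIntegral.integral_const, integral_log, sub_zero,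
    smul_eq_mul]
  rw [Real.log_mul (by positivity) h0.ne']
  ring

/-- the product of sines -/
theorem main_eq {N m : ℕ} (hm : 0 < m) (hmN : m < N) :
    Sd N m * Real.exp (N * Lc (m / N)) =
      Stirling.stirlingSeq m * √(2 * N * Real.sin (π * (m / N)) / π) * Real.exp (TT N m) := by
  have hpi := Real.pi_pos
  have hN' : (0 : ℝ) < N := by exact_mod_cast (by omega : 0 < N)
  have hm' : (0 : ℝ) < m := by exact_mod_cast hm
  have hx0 : 0 < (m : ℝ) / N := by positivity
  have hx1 : (m : ℝ) / N < 1 := by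
    rw [div_lt_one hN']
    exact_mod_cast hmN
  have hs := sin_pos' hx0 hx1
  have hSd := Sd_pos hmN
  have hst : 0 < Stirling.stirlingSeq m := by
    obtain ⟨k, rfl⟩ : ∃ k, m = k + 1 := ⟨m - 1, by omega⟩
    exact Stirling.stirlingSeq'_pos k
  have hfac : (0 : ℝ) < m.factorial := by exact_mod_cast Nat.factorial_pos m
  -- take logarithms
  refine Real.log_injOn_pos (Set.mem_Ioi.2 (by positivity)) (Set.mem_Ioi.2 (by positivity)) ?_
  rw [Real.log_mul hSd.ne' (Real.exp_pos _).ne', Real.log_exp,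
    Real.log_mul (by positivity) (Real.exp_pos _).ne', Real.log_exp,
    Real.log_mul hst.ne' (by positivity), Real.log_sqrt (by positivity), log_Sd hmN, Lc_eq,
    Il_eq hx0 hx1, Stirling.log_stirlingSeq_formula]
  -- the sum of logarithms
  have e1 : Sl N m = m * Real.log (2 * π / N) + Real.log m.factorial +
      ∑ k ∈ range m, hh (((k + 1 : ℕ) : ℝ) / N) := by
    have h1 : ∀ k ∈ range m, el (((k + 1 : ℕ) : ℝ) / N) =
        (Real.log (2 * π / N) + Real.log ((k + 1 : ℕ) : ℝ)) + hh (((k + 1 : ℕ) : ℝ) / N) := by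
      intro k hk
      rw [mem_range] at hk
      have hk0 : (0 : ℝ) < ((k + 1 : ℕ) : ℝ) := by positivity
      have hk1 : ((k + 1 : ℕ) : ℝ) / N < 1 := by
        rw [div_lt_one hN']
        exact_mod_cast (by omega : k + 1 < N)
      have hs' := sin_pos' (t := ((k + 1 : ℕ) : ℝ) / N) (by positivity) hk1
      unfold el hh
      rw [Real.log_mul two_ne_zero hs'.ne', Real.log_mul hpi.ne' (by positivity),
        Real.log_div hk0.ne' hN'.ne', Real.log_div (by positivity) hN'.ne',
        Real.log_mul two_ne_zero hpi.ne']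
      ring
    unfold Sl
    rw [sum_congr rfl h1, sum_add_distrib, sum_add_distrib, sum_const, card_range, nsmul_eq_mul]
    have h2 : ∑ k ∈ range m, Real.log ((k + 1 : ℕ) : ℝ) = Real.log m.factorial := by
      rw [← Real.log_prod (fun k _ => by positivity), ← prod_range_add_one_eq_factorial]
      push_cast
      rfl
    rw [h2]
  rw [e1]
  unfold TT
  have l1 : Real.log (2 * π * (m / N)) = Real.log (2 * π) + Real.log m - Real.log N := by
    rw [Real.log_mul (by positivity) (by positivity), Real.log_div hm'.ne' hN'.ne']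
    ring
  have l2 : Real.log (2 * π / N) = Real.log (2 * π) - Real.log N :=
    Real.log_div (by positivity) hN'.ne'
  have l3 : hh (m / N) = Real.log (Real.sin (π * (m / N))) - (Real.log π + Real.log m -
      Real.log N) := by
    unfold hh
    rw [Real.log_mul hpi.ne' hx0.ne', Real.log_div hm'.ne' hN'.ne']
    ring
  have l4 : Real.log (2 * N * Real.sin (π * (m / N)) / π) = Real.log 2 + Real.log N +
      Real.log (Real.sin (π * (m / N))) - Real.log π := by
    rw [Real.log_div (by positivity) hpi.ne', Real.log_mul (by positivity) hs.ne',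
      Real.log_mul two_ne_zero hN'.ne']
  have l5 : Real.log (m / Real.exp 1) = Real.log m - 1 := by
    rw [Real.log_div hm'.ne' (Real.exp_pos _).ne', Real.log_exp]
  have l6 : Real.log (2 * m) = Real.log 2 + Real.log m := Real.log_mul two_ne_zero hm'.ne'
  rw [l1, l2, l3, l4, l5, l6]
  field_simp
  ring

end Pool.Agent.Y681.TK
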